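import Pool.Agent.Lib.SmJ.G.CTDefs
import Pool.Agent.Lib.SmJ.H.Alt

/-!
Project SMITH over `F_q(t)` (MP_48b749_nt), block H (cube theorem): definitions.

`I` = set of directions, a vertex of the cube is a `Finset I`, the face with directions `U` at the
position `P` (`Disjoint U P`) has the vertices `P ∪ T`, `T ⊆ U`; `alt U f P` is the alternating sum.
`chi0` is the character of the vertex `∅`, `del i = th_i^0 + th_i^1`, the character of the vertex `P`
is `chiC chi0 del P = chi0 + ∑ i ∈ P, del i`.
-/

set_option autoImplicit false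

open Finset

namespace Pool.Agent.SmJ

section

variable {G V V1 Pl I : Type*} [Group G] [AddCommGroup V] [DistribMulAction G V] [DecidableEq I]
  [AddCommGroup V1] [Module (ZMod 2) V1]

/-- The twist at the vertex `P`. -/
def chiC (chi0 : G → ZMod 2) (del : I → G → ZMod 2) (P : Finset I) (s : G) : ZMod 2 :=
  chi0 s + ∑ i ∈ P, del i s

/-- The right (affine) family at the vertex `P`. -/
def bC (b0 : G → V1) (w : I → V1) (del : I → G → ZMod 2) (P : Finset I) (s : G) : V1 :=
  b0 s + ∑ i ∈ P, del i s • w i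

/-- The product `∏ i ∈ T, del i s`. -/
def pdel (del : I → G → ZMod 2) (T : Finset I) (s : G) : ZMod 2 := ∏ i ∈ T, del i s

/-- The assumptions H0 on the cube: `pl i false` and `pl i true` are the places `p_i^0`, `p_i^1`. -/
structure CubeOk (S : Sys G V V1 Pl) (chi0 : G → ZMod 2) (del : I → G → ZMod 2)
    (pl : I → Bool → Pl) : Prop where
  chi0_hom : S.HomG chi0
  del_hom : ∀ i, S.HomG (del i)
  good : ∀ i e, pl i e ∈ S.good
  chi0_sg : ∀ i e, chi0 (S.sg (pl i e)) = if e then 0 else 1
  del_sg : ∀ i e, del i (S.sg (pl i e)) = 1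
  del_D : ∀ i e l, l ≠ i → ∀ s ∈ S.D (pl i e), del l s = 0
  other : ∀ v, (∀ i e, v ≠ pl i e) → (∀ i, ∀ s ∈ S.D v, del i s = 0) ∨
    (v ∈ S.good ∧ chi0 (S.sg v) = 0 ∧ ∀ i, del i (S.sg v) = 0)

/-- Minimality (m1) at level `j` of the face `(U, P)`: `A_U Psi_{|U|} = 0`. -/
def Mn (j : ℕ) (Psi : Finset I → G → V) (U P : Finset I) : Prop :=
  ∀ s, alt U (fun T => (2 : ℕ) ^ (j - U.card) • Psi T s) P = 0

/-- Weak minimality (*) at level `j` in the region `W`: for all faces `(U, P)` inside `W` and all `a`
with `|U| + a ≥ j + 1`: `A_U (2^a Psi) = 0` (equivalently `A_U Psi_{|U|-1} = 0` for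
`1 ≤ |U| ≤ j + 1` and `2^j Psi = 0`). -/
def Star (W : Finset I) (j : ℕ) (Psi : Finset I → G → V) : Prop :=
  ∀ U P, U ⊆ W → P ⊆ W → Disjoint U P → ∀ a, j + 1 ≤ U.card + a →
    ∀ s, alt U (fun T => (2 : ℕ) ^ a • Psi T s) P = 0

/-- The function `Phi_R : G → V1` of a family of level `j` (at the position `∅`). -/
noncomputable def PhiC (S : Sys G V V1 Pl) (j : ℕ) (Psi : Finset I → G → V) (R : Finset I) (s : G) :
    V1 :=
  S.un (alt R (fun T => (2 : ℕ) ^ (j - R.card) • Psi T s) ∅)

/-! ### Elementary facts -/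

/-- The twisted coboundary as a homomorphism in `Q`. -/
def dlHom (chi : G → ZMod 2) (s : G) : V →+ V where
  toFun := fun Q => dl chi Q s
  map_zero' := dl_zero chi s
  map_add' := fun Q R => dl_add chi Q R s

/-- The twisted action as a homomorphism. -/
def twHom (chi : G → ZMod 2) (s : G) : V →+ V where
  toFun := fun Q => tw chi s Q
  map_zero' := tw_zero chi s
  map_add' := fun Q R => tw_add chi s Q R

@[simp] theorem dlHom_apply (chi : G → ZMod 2) (s : G) (Q : V) : dlHom chi s Q = dl chi Q s := rfl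

@[simp] theorem twHom_apply (chi : G → ZMod 2) (s : G) (Q : V) : twHom chi s Q = tw chi s Q := rfl

theorem tw_congr {chi chi' : G → ZMod 2} {s : G} (h : chi s = chi' s) (Q : V) :
    tw chi s Q = tw chi' s Q := by
  simp [tw, h]

theorem dl_congr {chi chi' : G → ZMod 2} {s : G} (h : chi s = chi' s) (Q : V) :
    dl chi Q s = dl chi' Q s := by
  simp [dl, tw, h]

omit [Group G] [DecidableEq I] in
theorem chiC_empty (chi0 : G → ZMod 2) (del : I → G → ZMod 2) :
    chiC chi0 del ∅ = chi0 := by
  funext s; simp [chiC]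

omit [Group G] in
theorem chiC_insert (chi0 : G → ZMod 2) (del : I → G → ZMod 2) {i : I} {P : Finset I}
    (hi : i ∉ P) (s : G) : chiC chi0 del (insert i P) s = chiC chi0 del P s + del i s := by
  simp only [chiC, Finset.sum_insert hi]; ring

omit [Group G] in
theorem bC_insert (b0 : G → V1) (w : I → V1) (del : I → G → ZMod 2) {i : I} {P : Finset I}
    (hi : i ∉ P) (s : G) : bC b0 w del (insert i P) s = bC b0 w del P s + del i s • w i := by
  simp only [bC, Finset.sum_insert hi]; abel

omit [Group G] in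
theorem pdel_insert (del : I → G → ZMod 2) {i : I} {T : Finset I} (hi : i ∉ T) (s : G) :
    pdel del (insert i T) s = del i s * pdel del T s := by
  simp [pdel, Finset.prod_insert hi]

omit [Group G] [DecidableEq I] in
theorem pdel_empty (del : I → G → ZMod 2) (s : G) : pdel del ∅ s = 1 := by
  simp [pdel]

/-- The twists of the cube are 2-finite homomorphisms. -/
theorem chiC_hom {S : Sys G V V1 Pl} (h : S.Ok) {chi0 : G → ZMod 2} {del : I → G → ZMod 2}
    (h0 : S.HomG chi0) (hd : ∀ i, S.HomG (del i)) (P : Finset I) :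
    S.HomG (chiC chi0 del P) := by
  induction P using Finset.induction_on with
  | empty => rw [chiC_empty]; exact h0
  | insert i P hi ih =>
    have e : chiC chi0 del (insert i P) = fun s => chiC chi0 del P s + del i s := by
      funext s; exact chiC_insert chi0 del hi s
    rw [e]
    refine ⟨ih.1.comp₂ h (hd i).1 (fun a b => a + b), fun s t => ?_⟩
    simp only [ih.2 s t, (hd i).2 s t]
    ring

end

end Pool.Agent.SmJ
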