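import Pool.Agent.Lib.SmJ.H.Face
import Pool.Agent.Lib.SmJ.H.Th

/-!
Project SMITH, block H, H3, H4, H6: the zero sum theorem and the top sum theorem.
-/

set_option autoImplicit false

open Finset

namespace Pool.Agent.SmJ

section

variable {G V V1 Pl I : Type*} [Group G] [AddCommGroup V] [DistribMulAction G V] [DecidableEq I]
  [AddCommGroup V1] [Module (ZMod 2) V1]
variable {S : Sys G V V1 Pl}
variable {chi0 : G → ZMod 2} {del : I → G → ZMod 2} {j : ℕ} {W : Finset I}
  {Psi hat : Finset I → G → V} {Q : Finset I → Pl → V}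

/-- The global cochain of a face of dimension at least `j + 1` is 2-finite. -/
theorem GC_tf (hS : S.Ok)
    (hd : ∀ X, X ⊆ W → S.LiftData (chiC chi0 del X) (Psi X) (hat X) (Q X)) {R P : Finset I}
    (hR : R ⊆ W) (hP : P ⊆ W) : S.TF (GC S hat R P) := by
  unfold GC
  apply Sys.TF.comp (f := fun s => alt R (fun X => hat X s) P) ?_ S.un
  apply tf_alt hS R P hat
  intro T hT
  exact (hd _ (Finset.union_subset hP (hT.trans hR))).tf

/-- The global cochain of a face of dimension at least `j + 2` is a homomorphism. -/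
theorem GC_hom (hS : S.Ok) (hst : Star W j Psi)
    (hd : ∀ X, X ⊆ W → S.LiftData (chiC chi0 del X) (Psi X) (hat X) (Q X)) {R P : Finset I}
    (hR : R ⊆ W) (hP : P ⊆ W) (hRP : Disjoint R P) (hj : j + 2 ≤ R.card) :
    S.HomG (GC S hat R P) := by
  have h2 : ∀ s, (2 : ℕ) • alt R (fun X => hat X s) P = 0 := fun s =>
    two_hat hst hd hR hP hRP (by omega) s
  refine ⟨GC_tf hS hd hR hP, fun s t => ?_⟩
  apply hS.iota_inj
  change S.iota (S.un _) = S.iota (S.un _ + S.un _)
  rw [map_add, Sys.iota_un hS (h2 _), Sys.iota_un hS (h2 _), Sys.iota_un hS (h2 _),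
    alt_cocycle chi0 del hat s t R P hRP (fun T hT =>
      (hd _ (Finset.union_subset hP (hT.trans hR))).coc s t)]
  congr 1
  rw [← Finset.add_sum_erase R.powerset _ (Finset.empty_mem_powerset R)]
  have h3 : ∑ T ∈ R.powerset.erase ∅, (2 ^ T.card * (pdel del T s).val) •
      alt (R \ T) (fun Q => hat Q t) (P ∪ T) = 0 := by
    apply Finset.sum_eq_zero
    intro T hT
    obtain ⟨hT0, hT1⟩ := Finset.mem_erase.1 hT
    have hTR : T ⊆ R := Finset.mem_powerset.1 hT1
    have hTpos : 0 < T.card := Finset.card_pos.2 (Finset.nonempty_iff_ne_empty.2 hT0)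
    have hcard : (R \ T).card = R.card - T.card := Finset.card_sdiff_of_subset hTR
    have hle : T.card ≤ R.card := Finset.card_le_card hTR
    have hPT : P ∪ T ⊆ W := Finset.union_subset hP (hTR.trans hR)
    have h4 : alt (R \ T) (fun Q => (2 : ℕ) ^ T.card • hat Q t) (P ∪ T) = 0 := by
      have h5 := hst (R \ T) (P ∪ T) (Finset.sdiff_subset.trans hR) hPT (by
        rw [Finset.disjoint_left]
        intro x hx hx'
        obtain ⟨h6, h7⟩ := Finset.mem_sdiff.1 hx
        rcases Finset.mem_union.1 hx' with h | h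
        · exact (Finset.disjoint_left.1 hRP) h6 h
        · exact h7 h) (T.card - 1) (by omega) t
      rw [← h5]
      apply alt_congr
      intro X hX
      rw [← (hd _ (Finset.union_subset hPT ((hX.trans Finset.sdiff_subset).trans hR))).two t,
        smul_smul, ← pow_succ]
      congr 2
      omega
    rw [mul_comm, mul_smul, ← alt_nsmul, h4, smul_zero]
  rw [h3, add_zero]
  have hv : (1 : ZMod 2).val = 1 := rfl
  simp only [Finset.card_empty, pow_zero, pdel_empty, hv, mul_one, one_smul, Finset.sdiff_empty,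
    Finset.union_empty]
  exact Sys.tw_of_two hS _ _ (h2 t)

/-- A homomorphism times a constant. -/
theorem hom_smul {a : G → ZMod 2} (ha : S.HomG a) (w : V1) : S.HomG (fun s => a s • w) :=
  ⟨ha.1.comp (fun x => x • w), fun s t => by simp only [ha.2 s t, add_smul]⟩

theorem exists_family (hS : S.Ok) (h0 : S.HomG chi0) (hdel : ∀ i, S.HomG (del i))
    (hPsi : ∀ X, X ⊆ W → S.IsSel (chiC chi0 del X) j (Psi X)) :
    ∃ (hat : Finset I → G → V) (Q : Finset I → Pl → V),
      ∀ X, X ⊆ W → S.LiftData (chiC chi0 del X) (Psi X) (hat X) (Q X) := by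
  have h : ∀ X, ∃ (hat : G → V) (Q : Pl → V), X ⊆ W →
      S.LiftData (chiC chi0 del X) (Psi X) hat Q := by
    intro X
    by_cases hX : X ⊆ W
    · obtain ⟨hat, Q, h⟩ := Sys.exists_liftData hS (chiC_hom hS h0 hdel X) (hPsi X hX)
      exact ⟨hat, Q, fun _ => h⟩
    · exact ⟨0, 0, fun h => absurd h hX⟩
  choose hat Q h using h
  exact ⟨hat, Q, h⟩

/-- The sum over a face of the pairings in terms of global symbols. -/
theorem face_sum (hS : S.Ok) {pl : I → Bool → Pl} (hC : CubeOk S chi0 del pl)
    (hst : Star W j Psi)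
    (hd : ∀ X, X ⊆ W → S.LiftData (chiC chi0 del X) (Psi X) (hat X) (Q X)) {U P : Finset I}
    (hU : U ⊆ W) (hP : P ⊆ W) (hUP : Disjoint U P) (hj : j + 2 ≤ U.card)
    (b0 : G → V1) (w : I → V1)
    (hb : ∀ X, X ⊆ W → S.IsSel1 (chiC chi0 del X) (bC b0 w del X)) :
    ∑ T ∈ U.powerset, S.CT (chiC chi0 del (P ∪ T)) (Psi (P ∪ T)) (bC b0 w del (P ∪ T)) =
      ∑ᶠ v, (S.sy v (S.loc v (GC S hat U P)) (S.loc v (bC b0 w del (P ∪ U))) +
      ∑ i ∈ U, S.sy v (S.loc v (GC S hat (U.erase i) P)) (S.loc v (fun s => del i s • w i))) := by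
  have hchi : ∀ X, S.HomG (chiC chi0 del X) := chiC_hom hS hC.chi0_hom hC.del_hom
  have hX : ∀ T ∈ U.powerset, P ∪ T ⊆ W := fun T hT =>
    Finset.union_subset hP ((Finset.mem_powerset.1 hT).trans hU)
  have h1 : ∀ T ∈ U.powerset, S.CT (chiC chi0 del (P ∪ T)) (Psi (P ∪ T)) (bC b0 w del (P ∪ T)) =
      ∑ᶠ v, S.sy v (S.xi (chiC chi0 del (P ∪ T)) (hat (P ∪ T)) (Q (P ∪ T)) v)
        (S.loc v (bC b0 w del (P ∪ T))) := fun T hT =>
    Sys.CT_eq hS (hchi _) (hd _ (hX T hT)) (hb _ (hX T hT))
  rw [Finset.sum_congr rfl h1, ← finsum_sum_comm U.powerset _ (fun T hT =>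
    (hd _ (hX T hT)).supp hS (hchi _) (hb _ (hX T hT)).1)]
  apply finsum_congr
  intro v
  exact face_place hS hC hst hd hU hP hUP hj b0 w hb v

/-- H3: the zero sum theorem for faces of dimension `j + 3` (or more). -/
theorem zero_sum (hS : S.Ok) {pl : I → Bool → Pl} (hC : CubeOk S chi0 del pl)
    (hst : Star W j Psi) (hPsi : ∀ X, X ⊆ W → S.IsSel (chiC chi0 del X) j (Psi X))
    {U P : Finset I} (hU : U ⊆ W) (hP : P ⊆ W) (hUP : Disjoint U P) (hj : j + 3 ≤ U.card)
    (b0 : G → V1) (w : I → V1)
    (hb : ∀ X, X ⊆ W → S.IsSel1 (chiC chi0 del X) (bC b0 w del X)) :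
    ∑ T ∈ U.powerset, S.CT (chiC chi0 del (P ∪ T)) (Psi (P ∪ T)) (bC b0 w del (P ∪ T)) = 0 := by
  obtain ⟨hat, Q, hd⟩ := exists_family hS hC.chi0_hom hC.del_hom hPsi
  rw [face_sum hS hC hst hd hU hP hUP (by omega) b0 w hb]
  have hG : S.HomG (GC S hat U P) := GC_hom hS hst hd hU hP hUP (by omega)
  have hGi : ∀ i ∈ U, S.HomG (GC S hat (U.erase i) P) := fun i hi =>
    GC_hom hS hst hd ((Finset.erase_subset i U).trans hU) hP
      (hUP.mono_left (Finset.erase_subset i U)) (by rw [Finset.card_erase_of_mem hi]; omega)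
  have hbU := (hb _ (Finset.union_subset hP hU)).1
  have hw : ∀ i, S.HomG (fun s => del i s • w i) := fun i => hom_smul (hC.del_hom i) (w i)
  have hfin : ∀ i ∈ U, {v | S.sy v (S.loc v (GC S hat (U.erase i) P))
      (S.loc v (fun s => del i s • w i)) ≠ 0}.Finite := fun i hi =>
    Sys.sy_supp hS (hGi i hi) (hw i)
  rw [finsum_add_distrib (Sys.sy_supp hS hG hbU), finsum_sum_comm U _ hfin, hS.recip _ _ hG hbU,
    zero_add]
  · exact Finset.sum_eq_zero fun i hi => hS.recip _ _ (hGi i hi) (hw i)
  · refine (Set.Finite.biUnion (Finset.finite_toSet U) hfin).subset ?_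
    intro v hv
    by_contra hn
    apply hv
    apply Finset.sum_eq_zero
    intro i hi
    by_contra h
    exact hn (Set.mem_biUnion (Finset.mem_coe.2 hi) h)

/-- H6, first part: transport of the value to the last vertex. -/
theorem value_const [Fintype I] (hS : S.Ok) {pl : I → Bool → Pl} (hC : CubeOk S chi0 del pl)
    (hst : Star univ j Psi) (hPsi : ∀ X, S.IsSel (chiC chi0 del X) j (Psi X))
    (hj : j + 3 ≤ Fintype.card I) (b0 : G → V1) (w : I → V1)
    (hb : ∀ X, S.IsSel1 (chiC chi0 del X) (bC b0 w del X)) {f : ZMod 2}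
    (hf : ∀ X, X ≠ univ → S.CT (chiC chi0 del X) (Psi X) (bC b0 w del X) = f) :
    S.CT (chiC chi0 del univ) (Psi univ) (bC b0 w del univ) = f := by
  have h := zero_sum hS hC hst (fun X _ => hPsi X) (U := univ) (P := ∅)
    (Finset.Subset.refl _) (Finset.empty_subset _) (Finset.disjoint_empty_right _)
    (by rwa [Finset.card_univ]) b0 w (fun X _ => hb X)
  simp only [Finset.empty_union] at h
  rw [← Finset.add_sum_erase _ _ (Finset.mem_powerset_self univ),
    Finset.sum_congr rfl (fun X hX => hf X (Finset.ne_of_mem_erase hX)), Finset.sum_const,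
    Finset.card_erase_of_mem (Finset.mem_powerset_self _), Finset.card_powerset,
    Finset.card_univ] at h
  have hodd : (2 ^ Fintype.card I - 1) • f = f := by
    have h1 : 2 ^ Fintype.card I - 1 = 2 * (2 ^ (Fintype.card I - 1) - 1) + 1 := by
      have h2 : 2 ^ Fintype.card I = 2 * 2 ^ (Fintype.card I - 1) := by
        rw [← pow_succ']
        congr 1
        omega
      have h3 : 1 ≤ 2 ^ (Fintype.card I - 1) := Nat.one_le_two_pow
      omega
    rw [h1, add_smul, one_smul, mul_smul, two_smul, CharTwo.add_self_eq_zero, zero_add]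
  rw [hodd] at h
  exact CharTwo.add_eq_zero.1 h

/-- H4: the top sum theorem. -/
theorem top_sum [Fintype I] (hS : S.Ok) {pl : I → Bool → Pl} (hC : CubeOk S chi0 del pl)
    (hst : Star univ j Psi) (hPsi : ∀ X, S.IsSel (chiC chi0 del X) j (Psi X))
    (hI : Fintype.card I = j + 2) (b0 : G → V1) (w : I → V1)
    (hb : ∀ X, S.IsSel1 (chiC chi0 del X) (bC b0 w del X)) (ib : I)
    (hw : ∀ i, i ≠ ib → w i = 0) {Th : G → V1} (htf : S.TF Th)
    (hrel : ThRel S j del Psi (univ.erase ib) Th)
    (hunr : ∀ v, v ≠ S.inf → Th (S.sg v) = 0) :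
    ∑ X : Finset I, S.CT (chiC chi0 del X) (Psi X) (bC b0 w del X) =
      S.e (Th (S.phi (pl ib false)) + Th (S.phi (pl ib true))) (w ib) := by
  classical
  obtain ⟨hat, Q, hd⟩ := exists_family (W := univ) hS hC.chi0_hom hC.del_hom
    (fun X _ => hPsi X)
  have hsum := face_sum hS hC hst hd (U := univ) (P := ∅)
    (Finset.Subset.refl _) (Finset.empty_subset _) (Finset.disjoint_empty_right _)
    (by rw [Finset.card_univ]; omega) b0 w (fun X _ => hb X)
  simp only [Finset.empty_union, Finset.powerset_univ] at hsum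
  rw [hsum]
  have hG : S.HomG (GC S hat univ ∅) := GC_hom hS hst hd (Finset.Subset.refl _)
    (Finset.empty_subset _) (Finset.disjoint_empty_right _) (by rw [Finset.card_univ]; omega)
  have hbU := (hb univ).1
  have hwi : S.HomG (fun s => del ib s • w ib) := hom_smul (hC.del_hom ib) (w ib)
  -- the homomorphism `om`
  have hWc : (univ.erase ib : Finset I).card = j + 1 := by
    rw [Finset.card_erase_of_mem (Finset.mem_univ ib), Finset.card_univ]; omega
  have hrel' : ThRel S j del Psi (univ.erase ib) (GC S hat (univ.erase ib) ∅) :=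
    om_rel hS hWc (hst.mono (Finset.erase_subset _ _))
      (fun T _ => (hd T (Finset.subset_univ T)).coc)
      (fun T _ => (hd T (Finset.subset_univ T)).two)
  have hom : S.HomG (fun s => GC S hat (univ.erase ib) ∅ s - Th s) :=
    ⟨(GC_tf hS hd (Finset.erase_subset _ _) (Finset.empty_subset _)).comp₂ hS htf
      (fun a b => a - b), fun s t => hrel'.sub_hom hrel s t⟩
  -- the local terms
  have hterm : ∀ v, S.sy v (S.loc v (GC S hat univ ∅)) (S.loc v (bC b0 w del univ)) +
      ∑ i, S.sy v (S.loc v (GC S hat (univ.erase i) ∅)) (S.loc v (fun s => del i s • w i)) =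
      S.sy v (S.loc v (GC S hat univ ∅)) (S.loc v (bC b0 w del univ)) +
      S.sy v (S.loc v (fun s => GC S hat (univ.erase ib) ∅ s - Th s))
        (S.loc v (fun s => del ib s • w ib)) +
      S.sy v (S.loc v Th) (S.loc v (fun s => del ib s • w ib)) := by
    intro v
    have h1 : ∑ i, S.sy v (S.loc v (GC S hat (univ.erase i) ∅))
        (S.loc v (fun s => del i s • w i)) =
        S.sy v (S.loc v (GC S hat (univ.erase ib) ∅)) (S.loc v (fun s => del ib s • w ib)) := by
      apply Finset.sum_eq_single ib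
      · intro i _ hi
        have : S.loc v (fun s => del i s • w i) = 0 := by
          apply Prod.ext
          · change del i (S.sg v) • w i = 0
            rw [hw i hi, smul_zero]
          · change del i (S.phi v) • w i = 0
            rw [hw i hi, smul_zero]
        rw [this, Sys.sy_zero_right]
      · intro hn
        exact absurd (Finset.mem_univ ib) hn
    rw [h1, add_assoc]
    congr 1
    rw [← Sys.sy_add_left]
    congr 1
    apply Prod.ext
    · change _ = GC S hat (univ.erase ib) ∅ _ - Th _ + Th _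
      rw [sub_add_cancel]; rfl
    · change _ = GC S hat (univ.erase ib) ∅ _ - Th _ + Th _
      rw [sub_add_cancel]; rfl
  rw [finsum_congr hterm]
  -- the two special places
  have hne : pl ib false ≠ pl ib true := by
    intro h
    have h1 := hC.chi0_sg ib false
    have h2 := hC.chi0_sg ib true
    rw [h] at h1
    rw [h1] at h2
    exact absurd h2 (by decide)
  have hval : ∀ v, S.sy v (S.loc v Th) (S.loc v (fun s => del ib s • w ib)) =
      if v = pl ib false ∨ v = pl ib true then S.e (Th (S.phi v)) (w ib) else 0 := by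
    intro v
    by_cases hv : v = pl ib false ∨ v = pl ib true
    · rw [if_pos hv]
      obtain ⟨e, rfl⟩ : ∃ e, v = pl ib e := by
        rcases hv with h | h
        · exact ⟨false, h⟩
        · exact ⟨true, h⟩
      have hg := hC.good ib e
      have hinf : pl ib e ≠ S.inf := fun h => hS.inf_not_good (h ▸ hg)
      have h1 : Th (S.sg (pl ib e)) = 0 := hunr _ hinf
      have h2 : del ib (S.sg (pl ib e)) = 1 := hC.del_sg ib e
      simp only [Sys.sy, sym, Sys.loc, h1, h2, one_smul]
      simp
    · rw [if_neg hv]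
      push Not at hv
      by_cases hex : ∃ i e, v = pl i e
      · obtain ⟨i, e, rfl⟩ := hex
        have hi : ib ≠ i := by
          rintro rfl
          cases e
          · exact hv.1 rfl
          · exact hv.2 rfl
        have : S.loc (pl i e) (fun s => del ib s • w ib) = 0 := by
          apply Prod.ext
          · change del ib _ • w ib = 0
            rw [hC.del_D i e ib hi _ (hS.sg_mem _), zero_smul]
          · change del ib _ • w ib = 0
            rw [hC.del_D i e ib hi _ (hS.phi_mem _), zero_smul]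
        rw [this, Sys.sy_zero_right]
      · push Not at hex
        rcases hC.other v hex with h | ⟨h1, _, h3⟩
        · have : S.loc v (fun s => del ib s • w ib) = 0 := by
            apply Prod.ext
            · change del ib _ • w ib = 0
              rw [h ib _ (hS.sg_mem _), zero_smul]
            · change del ib _ • w ib = 0
              rw [h ib _ (hS.phi_mem _), zero_smul]
          rw [this, Sys.sy_zero_right]
        · have hinf : v ≠ S.inf := fun h => hS.inf_not_good (h ▸ h1)
          apply sym_unr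
          · exact hunr v hinf
          · change del ib (S.sg v) • w ib = 0
            rw [h3 ib, zero_smul]
  have hsupp : {v | S.sy v (S.loc v Th) (S.loc v (fun s => del ib s • w ib)) ≠ 0} ⊆
      (({pl ib false, pl ib true} : Finset Pl) : Set Pl) := by
    intro v hv
    by_contra hn
    apply hv
    rw [hval v, if_neg]
    intro h
    apply hn
    simpa using h
  have hfin3 : {v | S.sy v (S.loc v Th) (S.loc v (fun s => del ib s • w ib)) ≠ 0}.Finite :=
    (Finset.finite_toSet _).subset hsupp
  have hf1 := Sys.sy_supp hS hG hbU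
  have hf2 := Sys.sy_supp hS hom hwi
  have hf12 : {v | S.sy v (S.loc v (GC S hat univ ∅)) (S.loc v (bC b0 w del univ)) +
      S.sy v (S.loc v (fun s => GC S hat (univ.erase ib) ∅ s - Th s))
        (S.loc v (fun s => del ib s • w ib)) ≠ 0}.Finite := by
    refine (hf1.union hf2).subset ?_
    intro v hv
    by_contra hn
    rw [Set.mem_union, not_or] at hn
    apply hv
    rw [not_not.1 hn.1, not_not.1 hn.2, add_zero]
  rw [finsum_add_distrib hf12 hfin3, finsum_add_distrib hf1 hf2, hS.recip _ _ hG hbU,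
    hS.recip _ _ hom hwi, add_zero, zero_add, finsum_eq_sum_of_support_subset _ hsupp,
    Finset.sum_pair hne, hval, hval, if_pos (Or.inl rfl), if_pos (Or.inr rfl),
    map_add, LinearMap.add_apply]

end

end Pool.Agent.SmJ
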