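import Pool.Agent.Lib.SmJ.H.Min
import Pool.Agent.Lib.SmJ.G.Unr

/-!
Project SMITH, block H, H5: the last vertex.
-/

set_option autoImplicit false

open Finset

namespace Pool.Agent.SmJ

section

variable {G V V1 Pl I : Type*} [Group G] [AddCommGroup V] [DistribMulAction G V] [DecidableEq I]
  [AddCommGroup V1] [Module (ZMod 2) V1]
  [Fintype I]

omit [Group G] [DistribMulAction G V] in
/-- A family which vanishes off the last vertex. -/
theorem alt_single (R : Finset I) (f : Finset I → V)
    (h : ∀ T, T ⊆ R → T ≠ R → f (univ \ R ∪ T) = 0) :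
    alt R f (univ \ R) = (-1 : ℤ) ^ R.card • f univ := by
  unfold alt
  rw [Finset.sum_eq_single R]
  · rw [Finset.sdiff_union_of_subset (Finset.subset_univ R)]
  · intro T hT hne
    rw [h T (Finset.mem_powerset.1 hT) hne, smul_zero]
  · intro hn
    exact absurd (Finset.mem_powerset_self R) hn

omit [Group G] [DistribMulAction G V] in
/-- If the alternating sum and all values off the last vertex vanish then so does the last value. -/
theorem last_eq_zero (R : Finset I) (f : Finset I → V)
    (h : ∀ T, T ⊆ R → T ≠ R → f (univ \ R ∪ T) = 0) (h0 : alt R f (univ \ R) = 0) :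
    f univ = 0 := by
  rw [alt_single R f h] at h0
  rcases neg_one_pow_eq_or ℤ R.card with h1 | h1
  · rwa [h1, one_smul] at h0
  · rwa [h1, neg_smul, one_smul, neg_eq_zero] at h0

omit [Group G] [DistribMulAction G V] in
theorem ne_univ_of_ne {R T : Finset I} (hT : T ⊆ R) (hne : T ≠ R) : univ \ R ∪ T ≠ univ := by
  intro he
  apply hne
  apply Finset.Subset.antisymm hT
  intro x hx
  have : x ∈ univ \ R ∪ T := by rw [he]; exact Finset.mem_univ x
  rcases Finset.mem_union.1 this with h | h
  · exact absurd hx (Finset.mem_sdiff.1 h).2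
  · exact h

/-- The value at the last vertex which makes the alternating sum over the top face with directions
`R` vanish. -/
noncomputable def lastW (R : Finset I) (f : Finset I → V) : V :=
  -((-1 : ℤ) ^ R.card • alt R (Function.update f univ 0) (univ \ R))

omit [Group G] [DistribMulAction G V] in
theorem alt_update_last (R : Finset I) (f : Finset I → V) :
    alt R (Function.update f univ (lastW R f)) (univ \ R) = 0 := by
  have key : alt R (Function.update f univ (lastW R f)) (univ \ R) =
      alt R (fun T => Function.update f univ (lastW R f) T - Function.update f univ 0 T)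
        (univ \ R) + alt R (Function.update f univ 0) (univ \ R) := by
    rw [alt_sub]; abel
  rw [key, alt_single]
  · simp only [Function.update_self, sub_zero]
    rw [lastW, smul_neg, smul_smul, ← pow_add, Even.neg_one_pow ⟨R.card, rfl⟩, one_smul]
    abel
  · intro T hT hne
    have h := ne_univ_of_ne hT hne
    rw [Function.update_of_ne h, Function.update_of_ne h, sub_self]

/-- The completed family. -/
noncomputable def lastFam (R : Finset I) (Psi : Finset I → G → V) : Finset I → G → V :=
  fun T s => Function.update (fun T => Psi T s) univ (lastW R (fun T => Psi T s)) T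

omit [Group G] [DistribMulAction G V] in
theorem lastFam_of_ne (R : Finset I) (Psi : Finset I → G → V) {T : Finset I} (hT : T ≠ univ) :
    lastFam R Psi T = Psi T := by
  funext s
  simp [lastFam, Function.update_of_ne hT]

omit [Group G] [DistribMulAction G V] in
/-- The alternating sum over the top face with directions `R` vanishes. -/
theorem alt_lastFam_top (R : Finset I) (Psi : Finset I → G → V) (s : G) :
    alt R (fun T => lastFam R Psi T s) (univ \ R) = 0 :=
  alt_update_last R (fun T => Psi T s)

omit [Group G] [DistribMulAction G V] in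
/-- Level of the last vertex. -/
theorem lev_lastFam (R : Finset I) (Psi : Finset I → G → V) (s : G) {j : ℕ}
    (h : ∀ T, T ≠ univ → (2 : ℕ) ^ j • Psi T s = 0) (T : Finset I) :
    (2 : ℕ) ^ j • lastFam R Psi T s = 0 := by
  by_cases hT : T = univ
  · subst hT
    apply last_eq_zero R (fun T => (2 : ℕ) ^ j • lastFam R Psi T s)
    · intro T hT hne
      have h1 := ne_univ_of_ne hT hne
      rw [lastFam_of_ne R Psi h1, h _ h1]
    · rw [alt_nsmul, alt_lastFam_top, smul_zero]
  · rw [lastFam_of_ne R Psi hT, h T hT]

omit [Group G] [DistribMulAction G V] in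
/-- All faces (with directions outside `σ`) of the completed family are minimal. -/
theorem mn_lastFam {σ : Finset I} {j : ℕ} {Psi : Finset I → G → V}
    (hm : ∀ U P, Disjoint U P → Disjoint U σ → U.Nonempty → U.card ≤ j → P ∪ U ≠ univ →
      Mn j Psi U P) :
    ∀ U P, Disjoint U P → Disjoint U σ → U.Nonempty → U.card ≤ j →
      Mn j (lastFam (univ \ σ) Psi) U P := by
  intro U P hUP hUσ hU0 hUj
  set R : Finset I := univ \ σ with hRdef
  have hmc : ∀ U' P', Disjoint U' P' → Disjoint U' σ → U'.Nonempty → U'.card ≤ j →
      P' ∪ U' ≠ univ → Mn j (lastFam R Psi) U' P' := by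
    intro U' P' h1 h2 h3 h4 h5 s
    have := hm U' P' h1 h2 h3 h4 h5 s
    rw [← this]
    apply alt_congr
    intro T hT
    have hne : P' ∪ T ≠ univ := by
      intro he
      apply h5
      rw [Finset.eq_univ_iff_forall] at he ⊢
      intro x
      rcases Finset.mem_union.1 (he x) with h | h
      · exact Finset.mem_union_left _ h
      · exact Finset.mem_union_right _ (hT h)
    rw [lastFam_of_ne R Psi hne]
  by_cases hne : P ∪ U = univ
  · intro s
    have hUR : U ⊆ R := by
      intro x hx
      rw [hRdef, Finset.mem_sdiff]
      exact ⟨Finset.mem_univ x, fun h => (Finset.disjoint_left.1 hUσ) hx h⟩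
    -- the position of the face
    have hP : P = (univ \ R) ∪ (R \ U) := by
      ext x
      constructor
      · intro hx
        by_cases hxR : x ∈ R
        · apply Finset.mem_union_right
          rw [Finset.mem_sdiff]
          exact ⟨hxR, fun h => (Finset.disjoint_left.1 hUP) h hx⟩
        · apply Finset.mem_union_left
          rw [Finset.mem_sdiff]
          exact ⟨Finset.mem_univ x, hxR⟩
      · intro hx
        have hxU : x ∉ U := by
          rcases Finset.mem_union.1 hx with h | h
          · exact fun h' => (Finset.mem_sdiff.1 h).2 (hUR h')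
          · exact (Finset.mem_sdiff.1 h).2
        have : x ∈ P ∪ U := by rw [hne]; exact Finset.mem_univ x
        rcases Finset.mem_union.1 this with h | h
        · exact h
        · exact absurd h hxU
    rw [hP]
    apply alt_top_eq_zero hUR
    · intro T hT
      have hTR : T ⊆ R \ U := hT.1
      have h1 : Disjoint U (univ \ R ∪ T) := by
        rw [Finset.disjoint_left]
        intro x hx hx'
        rcases Finset.mem_union.1 hx' with h | h
        · exact (Finset.mem_sdiff.1 h).2 (hUR hx)
        · exact (Finset.mem_sdiff.1 (hTR h)).2 hx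
      apply hmc U (univ \ R ∪ T) h1 hUσ hU0 hUj
      intro he
      apply hT.2
      intro x hx
      have : x ∈ univ \ R ∪ T ∪ U := by rw [he]; exact Finset.mem_univ x
      obtain ⟨hxR, hxU⟩ := Finset.mem_sdiff.1 hx
      rcases Finset.mem_union.1 this with h | h
      · rcases Finset.mem_union.1 h with h | h
        · exact absurd hxR (Finset.mem_sdiff.1 h).2
        · exact h
      · exact absurd h hxU
    · rw [alt_nsmul, alt_lastFam_top, smul_zero]
  · exact hmc U P hUP hUσ hU0 hUj hne

variable {S : Sys G V V1 Pl}

omit [Fintype I] in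
/-- Alternating sum of coboundaries of a constant twist. -/
theorem alt_dl (U P : Finset I) (chi : G → ZMod 2) (Q : Finset I → V) (s : G) :
    alt U (fun T => dl chi (Q T) s) P = dl chi (alt U Q P) s :=
  alt_map (dlHom chi s) U Q P

/-- H5: the last vertex. -/
theorem last_vertex (hS : S.Ok) {chi0 : G → ZMod 2} {del : I → G → ZMod 2}
    {pl : I → Bool → Pl} (hC : CubeOk S chi0 del pl) {j k : ℕ} (hjk : j ≤ k)
    (hI : Fintype.card I = k + 2) {σ : Finset I} (hσ : σ.card ≤ 1) {Psi : Finset I → G → V}
    (hPsi : ∀ P, P ≠ univ → S.IsSel (chiC chi0 del P) j (Psi P))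
    (hm : ∀ U P, Disjoint U P → Disjoint U σ → U.Nonempty → U.card ≤ j → P ∪ U ≠ univ →
      Mn j Psi U P) :
    (∀ P, S.IsSel (chiC chi0 del P) j (lastFam (univ \ σ) Psi P)) ∧
    (∀ U P, Disjoint U P → Disjoint U σ → U.Nonempty → U.card ≤ j →
      Mn j (lastFam (univ \ σ) Psi) U P) := by
  have hmn := mn_lastFam hm
  refine ⟨?_, hmn⟩
  set R : Finset I := univ \ σ with hR
  have hlev : ∀ P, P ⊆ univ → ∀ s, (2 : ℕ) ^ j • lastFam R Psi P s = 0 := fun P _ s =>
    lev_lastFam R Psi s (fun T hT => (hPsi T hT).lev s) P
  have hRcard : k + 1 ≤ R.card := by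
    have h1 : (univ : Finset I).card - σ.card ≤ R.card := Finset.le_card_sdiff σ univ
    rw [Finset.card_univ, hI] at h1
    omega
  -- vanishing of the alternating sums of all large faces
  have hbig : ∀ (U P : Finset I), Disjoint U P → Disjoint U σ → ∀ a, j ≤ U.card + a → ∀ s,
      alt U (fun T => (2 : ℕ) ^ a • lastFam R Psi T s) P = 0 := by
    intro U P hUP hUσ a ha s
    exact mn_pow hlev (fun U' P' _ _ h1 h2 h3 h4 => hmn U' P' h1 h2 h3 h4)
      (Finset.subset_univ U) (Finset.subset_univ P) hUP hUσ ha s
  have hbig0 : ∀ (U P : Finset I), Disjoint U P → Disjoint U σ → j ≤ U.card → ∀ s,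
      alt U (fun T => lastFam R Psi T s) P = 0 := by
    intro U P hUP hUσ ha s
    have := hbig U P hUP hUσ 0 (by omega) s
    simpa using this
  have hRσ : Disjoint R σ := Finset.sdiff_disjoint
  have hRR : Disjoint R (univ \ R) := Finset.disjoint_sdiff
  have hcocne : ∀ P, P ≠ univ → S.IsSel (chiC chi0 del P) j (lastFam R Psi P) := by
    intro P hP
    rw [lastFam_of_ne R Psi hP]
    exact hPsi P hP
  intro P
  by_cases hP : P = univ
  swap
  · exact hcocne P hP
  subst hP
  have hchi : ∀ P, S.HomG (chiC chi0 del P) := chiC_hom hS hC.chi0_hom hC.del_hom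
  -- 2-finiteness
  have htf : S.TF (lastFam R Psi univ) := by
    have e : lastFam R Psi univ = fun s => -((-1 : ℤ) ^ R.card •
        alt R (fun T => Function.update (fun T => Psi T s) univ 0 T) (univ \ R)) := by
      funext s
      simp only [lastFam, Function.update_self, lastW]
    rw [e]
    apply Sys.TF.comp
      (f := fun s => alt R (fun T => Function.update (fun T => Psi T s) univ 0 T) (univ \ R)) ?_
      (fun x => -((-1 : ℤ) ^ R.card • x))
    apply tf_alt hS R (univ \ R) (fun T s => Function.update (fun T => Psi T s) univ 0 T)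
    intro T _
    by_cases hT : univ \ R ∪ T = univ
    · rw [hT]
      simp only [Function.update_self]
      exact Sys.TF_const hS 0
    · simp only [Function.update_of_ne hT]
      exact (hPsi _ hT).tf
  -- cocycle
  have hcoc : ∀ s t, lastFam R Psi univ (s * t) =
      lastFam R Psi univ s + tw (chiC chi0 del univ) s (lastFam R Psi univ t) := by
    intro s t
    have h1 := last_eq_zero R (fun Q => lastFam R Psi Q (s * t) -
      (lastFam R Psi Q s + tw (chiC chi0 del Q) s (lastFam R Psi Q t))) (by
        intro T hT hne
        have h2 := (hcocne _ (ne_univ_of_ne hT hne)).coc s t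
        change lastFam R Psi _ (s * t) - (lastFam R Psi _ s + tw _ s (lastFam R Psi _ t)) = 0
        rw [h2, sub_self]) (by
        rw [alt_sub, alt_add, alt_tw chi0 del _ s R (univ \ R) hRR,
          hbig0 R _ hRR hRσ (by omega), hbig0 R _ hRR hRσ (by omega)]
        have h3 : (∑ T ∈ R.powerset, (2 ^ T.card * (pdel del T s).val) •
            alt (R \ T) (fun Q => lastFam R Psi Q t) (univ \ R ∪ T)) = 0 := by
          apply Finset.sum_eq_zero
          intro T hT
          have hTR : T ⊆ R := Finset.mem_powerset.1 hT
          have hcard : (R \ T).card = R.card - T.card := Finset.card_sdiff_of_subset hTR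
          have hle : T.card ≤ R.card := Finset.card_le_card hTR
          rw [mul_comm, mul_smul, ← alt_nsmul, hbig (R \ T) (univ \ R ∪ T) ?_
            (hRσ.mono_left Finset.sdiff_subset) T.card (by omega) t, smul_zero]
          rw [Finset.disjoint_left]
          intro x hx hx'
          obtain ⟨hx1, hx2⟩ := Finset.mem_sdiff.1 hx
          rcases Finset.mem_union.1 hx' with h | h
          · exact (Finset.mem_sdiff.1 h).2 hx1
          · exact hx2 h
        rw [h3, tw_zero]
        simp)
    exact sub_eq_zero.1 h1
  have hcocD : ∀ v, S.CocD (chiC chi0 del univ) v (lastFam R Psi univ) := fun v =>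
    ⟨htf.on _, fun s _ t _ => hcoc s t⟩
  -- local conditions: first kind (constant twist on the top face with directions `U`)
  have hloc1 : ∀ (U : Finset I) (v : Pl), Disjoint U σ → j ≤ U.card →
      (∀ i ∈ U, ∀ s ∈ S.D v, del i s = 0) → S.Zv (chiC chi0 del univ) v (lastFam R Psi univ) := by
    intro U v hUσ hUj hdel
    -- the twists agree
    have hag : ∀ T, T ⊆ U → ∀ s ∈ S.D v, chiC chi0 del (univ \ U ∪ T) s =
        chiC chi0 del univ s := by
      intro T hT s hs
      unfold chiC
      congr 1
      apply Finset.sum_subset (Finset.subset_univ _)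
      intro i _ hi
      have : i ∈ U := by
        by_contra hn
        exact hi (Finset.mem_union_left _ (Finset.mem_sdiff.2 ⟨Finset.mem_univ i, hn⟩))
      exact hdel i this s hs
    -- local points
    have hQ : ∀ P, ∃ Q : V, P ≠ univ → ∀ s ∈ S.D v, lastFam R Psi P s = dl (chiC chi0 del P) Q s := by
      intro P
      by_cases hP : P = univ
      · exact ⟨0, fun h => absurd hP h⟩
      · obtain ⟨Q, hQ⟩ := (hcocne P hP).loc v
        exact ⟨Q, fun _ => hQ⟩
    choose Q hQ using hQ
    set Q' : Finset I → V := Function.update Q univ (lastW U Q) with hQ'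
    refine ⟨Q' univ, fun s hs => ?_⟩
    have h1 := last_eq_zero U (fun T => lastFam R Psi T s - dl (chiC chi0 del univ) (Q' T) s) (by
      intro T hT hne
      have h2 := ne_univ_of_ne hT hne
      change lastFam R Psi _ s - dl (chiC chi0 del univ) (Q' _) s = 0
      rw [hQ _ h2 s hs, hQ', Function.update_of_ne h2, dl_congr (hag T hT s hs), sub_self]) (by
      rw [alt_sub, alt_dl, hbig0 U _ Finset.disjoint_sdiff hUσ hUj, hQ', alt_update_last,
        dl_zero, sub_zero])
    exact sub_eq_zero.1 h1
  -- local conditions: second kind (all other vertices of the top face are unramified)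
  have hloc2 : ∀ (U : Finset I) (v : Pl), Disjoint U σ → j ≤ U.card → v ∈ S.good →
      (∀ T, T ⊆ U → chiC chi0 del (univ \ U ∪ T) (S.sg v) = 0) →
      S.Zv (chiC chi0 del univ) v (lastFam R Psi univ) := by
    intro U v hUσ hUj hv hchi0
    have hu : chiC chi0 del univ (S.sg v) = 0 := by
      have := hchi0 U (Finset.Subset.refl U)
      rwa [Finset.sdiff_union_of_subset (Finset.subset_univ U)] at this
    rw [Sys.zv_iff_unr hS (hchi univ) hv hu j (hcocD v) (fun s _ => hlev univ
      (Finset.subset_univ _) s)]
    apply last_eq_zero U (fun T => lastFam R Psi T (S.sg v))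
    · intro T hT hne
      have h2 := ne_univ_of_ne hT hne
      obtain ⟨Q, hQ⟩ := (hcocne _ h2).loc v
      change lastFam R Psi _ (S.sg v) = 0
      rw [hQ _ (hS.sg_mem v), Sys.dl_sg_zero hS hv (hchi0 T hT)]
    · exact hbig0 U _ Finset.disjoint_sdiff hUσ hUj _
  refine ⟨htf, hcoc, hlev univ (Finset.subset_univ _), fun v => ?_⟩
  by_cases hv : ∃ i e, v = pl i e
  · obtain ⟨i, e, rfl⟩ := hv
    -- directions different from `i` and outside `σ`
    set U : Finset I := R.erase i with hU
    have hUσ : Disjoint U σ := hRσ.mono_left (Finset.erase_subset i R)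
    have hUj : j ≤ U.card := by
      have h1 : R.card - 1 ≤ U.card := Finset.pred_card_le_card_erase (s := R) (a := i)
      omega
    have hiU : i ∉ U := Finset.notMem_erase i R
    cases e with
    | true =>
      apply hloc1 U _ hUσ hUj
      intro l hl s hs
      exact hC.del_D i true l (fun h => hiU (h ▸ hl)) s hs
    | false =>
      apply hloc2 U _ hUσ hUj (hC.good i false)
      intro T hT
      unfold chiC
      rw [hC.chi0_sg i false, Finset.sum_eq_single i]
      · rw [hC.del_sg i false]
        decide
      · intro l _ hl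
        exact hC.del_D i false l hl _ (hS.sg_mem _)
      · intro hn
        exfalso
        apply hn
        exact Finset.mem_union_left _ (Finset.mem_sdiff.2 ⟨Finset.mem_univ i, hiU⟩)
  · push Not at hv
    rcases hC.other v hv with h | ⟨h1, h2, h3⟩
    · apply hloc1 R v hRσ (by omega)
      intro i _ s hs
      exact h i s hs
    · apply hloc2 R v hRσ (by omega) h1
      intro T _
      unfold chiC
      rw [h2, Finset.sum_eq_zero (fun i _ => h3 i), add_zero]

end

end Pool.Agent.SmJ
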